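import Pool.Agent.Helper98.EY.StmtsC

set_option autoImplicit false

/-! # Module HZN: arithmetic of the two height profiles -/

namespace Pool.Agent.Helper98.EX

open Finset Filter Asymptotics

/-- natural number form of the facts needed -/
structure hzn_F (N p k R : ℕ) (bb : ℕ → ℕ) (S P : ℕ) : Prop where
  hS : S = 4 * P + 4 * R
  hP : P = (p + 1) * R
  b0 : bb 0 = 0
  bN : bb (p + 1) = N
  gap : ∀ i, i ≤ p → bb i + S ≤ bb (i + 1)
  sl : ∀ i, 1 ≤ i → i ≤ p → S ≤ bb i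
  sr : ∀ i, 1 ≤ i → i ≤ p → bb i + S ≤ N
  sk : ∀ i, 1 ≤ i → i ≤ p → bb i + S ≤ k ∨ k + S ≤ bb i
  sK : ∀ i, 1 ≤ i → i ≤ p → bb i + S ≤ N - k ∨ (N - k) + S ≤ bb i
  kl : S ≤ k
  kr : k + S ≤ N
  hR : 2 ≤ R

theorem hzn_mul {p R i : ℕ} (h : i ≤ p) : ∃ a, i * R = a ∧ (i + 1) * R = a + R ∧
    (p + 1 - i) * R + a = (p + 1) * R ∧ (p + 1 - (i + 1)) * R + a + R = (p + 1) * R := by
  obtain ⟨j, rfl⟩ := Nat.exists_eq_add_of_le h
  refine ⟨i * R, rfl, by ring, ?_, ?_⟩
  · have : i + j + 1 - i = j + 1 := by omega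
    rw [this]
    ring
  · have : i + j + 1 - (i + 1) = j := by omega
    rw [this]
    ring

/-- the facts in integers -/
theorem hzn_core {N p k : ℕ} {bb : ℕ → ℕ} {S P : ℕ} (F : hzn_F N p k (rs N) bb S P) :
    hz0 N p k bb 0 = k ∧ hz1 N p k bb 0 = k ∧ hz0 N p k bb (p + 1) = 0 ∧
    hz1 N p k bb (p + 1) = 0 ∧
    (∀ i, i ≤ p → hz0 N p k bb (i + 1) + rs N ≤ hz0 N p k bb i ∧
      hz0 N p k bb i + rs N + bb i ≤ hz0 N p k bb (i + 1) + bb (i + 1)) ∧
    (∀ i, i ≤ p → hz1 N p k bb (i + 1) + rs N ≤ hz1 N p k bb i ∧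
      hz1 N p k bb i + rs N + bb i ≤ hz1 N p k bb (i + 1) + bb (i + 1)) ∧
    (∀ i, i ≤ p + 1 → hz0 N p k bb i ≤ hz1 N p k bb i ∧
      hz1 N p k bb i + (k - bb i) ≤ hz0 N p k bb i + k ∧
      hz1 N p k bb i + (k - bb i) ≤ hz0 N p k bb i + (N - bb i)) := by
  obtain ⟨hS, hP, b0, bN, gap, sl, sr, sk, sK, kl, kr, hR⟩ := F
  have e00 : hz0 N p k bb 0 = k := by
    unfold hz0
    rw [b0, if_pos (by omega)]
    omega
  have e10 : hz1 N p k bb 0 = k := by
    unfold hz1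
    rw [b0, if_pos (by omega)]
    omega
  have e0p : hz0 N p k bb (p + 1) = 0 := by
    unfold hz0
    rw [bN, if_neg (by omega), Nat.sub_self, Nat.zero_mul]
  have e1p : hz1 N p k bb (p + 1) = 0 := by
    unfold hz1
    rw [bN, if_neg (by omega), Nat.sub_self, Nat.zero_sub]
  refine ⟨e00, e10, e0p, e1p, ?_, ?_, ?_⟩
  · intro i hi
    obtain ⟨a, a1, a2, a3, a4⟩ := hzn_mul (R := rs N) hi
    have g := gap i hi
    rw [← hP] at a3 a4
    have q1 : bb i ≤ k → bb i + S ≤ k := by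
      intro h
      rcases Nat.eq_zero_or_pos i with h0 | h0
      · rw [h0, b0]
        omega
      · rcases sk i h0 hi with h1 | h1 <;> omega
    have q2 : k < bb (i + 1) → k + S ≤ bb (i + 1) := by
      intro h
      rcases Nat.lt_or_ge i p with h0 | h0
      · rcases sk (i + 1) (by omega) (by omega) with h1 | h1 <;> omega
      · have : i = p := by omega
        rw [this, bN]
        omega
    unfold hz0
    rw [a1, a2]
    split_ifs with c1 c2 c2
    · omega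
    · omega
    · have := q1 c2
      have := q2 (by omega)
      omega
    · omega
  · intro i hi
    obtain ⟨a, a1, a2, a3, a4⟩ := hzn_mul (R := rs N) hi
    have g := gap i hi
    rw [← hP] at a3 a4
    have q1 : bb i ≤ N - k → bb i + S ≤ N - k := by
      intro h
      rcases Nat.eq_zero_or_pos i with h0 | h0
      · rw [h0, b0]
        omega
      · rcases sK i h0 hi with h1 | h1 <;> omega
    have q2 : N - k < bb (i + 1) → (N - k) + S ≤ bb (i + 1) := by
      intro h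
      rcases Nat.lt_or_ge i p with h0 | h0
      · rcases sK (i + 1) (by omega) (by omega) with h1 | h1 <;> omega
      · have : i = p := by omega
        rw [this, bN]
        omega
    have q3 : (bb (i + 1) = N ∧ (p + 1 - (i + 1)) * rs N = 0) ∨ bb (i + 1) + S ≤ N := by
      rcases Nat.lt_or_ge i p with h0 | h0
      · exact Or.inr (sr (i + 1) (by omega) (by omega))
      · have : i = p := by omega
        left
        rw [this, bN, Nat.sub_self, Nat.zero_mul]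
        exact ⟨rfl, rfl⟩
    unfold hz1
    rw [a1, a2]
    split_ifs with c1 c2 c2
    · omega
    · omega
    · have := q1 c2
      have := q2 (by omega)
      rcases q3 with ⟨q3, q4⟩ | q3 <;> omega
    · rcases q3 with ⟨q3, q4⟩ | q3 <;> omega
  · intro i hi
    rcases Nat.eq_zero_or_pos i with h0 | h0
    · rw [h0, e00, e10, b0]
      omega
    rcases Nat.lt_or_ge p i with h1 | h1
    · have : i = p + 1 := by omega
      rw [this, e0p, e1p, bN]
      omega
    obtain ⟨a, a1, a2, a3, a4⟩ := hzn_mul (R := rs N) h1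
    rw [← hP] at a3 a4
    have s1 := sl i h0 h1
    have s2 := sr i h0 h1
    have s3 := sk i h0 h1
    have s4 := sK i h0 h1
    unfold hz0 hz1
    rw [a1]
    split_ifs with c1 c2 c2
    · omega
    · omega
    · omega
    · omega

theorem hzn_num (c : ℝ) (hc : 0 < c) : ∃ N0 : ℕ, ∀ N : ℕ, N0 ≤ N →
    1 ≤ Real.log N ∧ 60 * Real.log N ^ 709 ≤ (N : ℝ) ^ (1 / 2 : ℝ) ∧
    (N : ℝ) ^ (1 / 2 : ℝ) ≤ c * N := by
  have h1 : Tendsto (fun N : ℕ => Real.log N) atTop atTop :=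
    Real.tendsto_log_atTop.comp tendsto_natCast_atTop_atTop
  have h2 := (isLittleO_log_rpow_rpow_atTop (709 : ℝ) (show (0 : ℝ) < 1 / 2 by norm_num)).bound
    (show (0 : ℝ) < 1 / 60 by norm_num)
  have h3 := tendsto_natCast_atTop_atTop (R := ℝ) |>.eventually h2
  have h4 : Tendsto (fun N : ℕ => c * (N : ℝ) ^ (1 / 2 : ℝ)) atTop atTop :=
    ((tendsto_rpow_atTop (by norm_num)).comp tendsto_natCast_atTop_atTop).const_mul_atTop hc
  obtain ⟨N0, hN0⟩ := eventually_atTop.1 ((h1.eventually_ge_atTop 1).and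
    (h3.and ((h4.eventually_ge_atTop 1).and (eventually_ge_atTop 1))))
  refine ⟨N0, fun N hN => ?_⟩
  obtain ⟨a1, a2, a3, a4⟩ := hN0 N hN
  have hN1 : (1 : ℝ) ≤ N := by exact_mod_cast a4
  refine ⟨a1, ?_, ?_⟩
  · have e : Real.log (N : ℝ) ^ (709 : ℝ) = Real.log N ^ 709 := by
      rw [← Real.rpow_natCast]
      norm_num
    rw [e, Real.norm_of_nonneg (by positivity), Real.norm_of_nonneg (by positivity)] at a2
    linarith
  · have e : (N : ℝ) = (N : ℝ) ^ (1 / 2 : ℝ) * (N : ℝ) ^ (1 / 2 : ℝ) := by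
      rw [← Real.rpow_add (by linarith)]
      norm_num
    have h5 : 0 ≤ (N : ℝ) ^ (1 / 2 : ℝ) := by positivity
    calc (N : ℝ) ^ (1 / 2 : ℝ) = 1 * (N : ℝ) ^ (1 / 2 : ℝ) := by ring
      _ ≤ (c * (N : ℝ) ^ (1 / 2 : ℝ)) * (N : ℝ) ^ (1 / 2 : ℝ) :=
        mul_le_mul_of_nonneg_right a3 h5
      _ = c * ((N : ℝ) ^ (1 / 2 : ℝ) * (N : ℝ) ^ (1 / 2 : ℝ)) := by ring
      _ = c * N := by rw [← e]

theorem st_HZN : ST_HZN := by
  intro c hc
  obtain ⟨N0, hN0⟩ := hzn_num c hc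
  refine ⟨N0, fun N p k bb hN hk1 hk2 hBL hSep hp => ?_⟩
  obtain ⟨hL, hnum, hcN⟩ := hN0 N hN
  have hL0 : 0 ≤ Real.log (N : ℝ) := by linarith
  have hRu : (rs N : ℝ) ≤ 2 * Real.log N ^ 243 + 3 := by
    unfold rs
    push_cast
    have := Nat.ceil_lt_add_one (show 0 ≤ 2 * Real.log (N : ℝ) ^ 243 by positivity)
    linarith
  have hRl : 2 * Real.log N ^ 243 ≤ (rs N : ℝ) := by
    unfold rs
    push_cast
    have := Nat.le_ceil (2 * Real.log (N : ℝ) ^ 243)
    linarith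
  have hR2 : 2 ≤ rs N := by
    unfold rs
    omega
  have hSr : ((4 * ((p + 1) * rs N) + 4 * rs N : ℕ) : ℝ) ≤ (N : ℝ) ^ (1 / 2 : ℝ) := by
    push_cast
    have g1 : (1 : ℝ) ≤ Real.log N ^ 243 := one_le_pow₀ hL
    have g2 : (1 : ℝ) ≤ Real.log N ^ 466 := one_le_pow₀ hL
    have g3 : (rs N : ℝ) ≤ 5 * Real.log N ^ 243 := by linarith
    have g4 : (p : ℝ) + 2 ≤ 3 * Real.log N ^ 466 := by linarith
    have g5 : (0 : ℝ) ≤ rs N := by positivity
    calc 4 * (((p : ℝ) + 1) * (rs N : ℝ)) + 4 * (rs N : ℝ) = 4 * (((p : ℝ) + 2) * rs N) := by ring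
      _ ≤ 4 * ((3 * Real.log N ^ 466) * (5 * Real.log N ^ 243)) := by
        refine mul_le_mul_of_nonneg_left ?_ (by norm_num)
        exact mul_le_mul g4 g3 g5 (by positivity)
      _ = 60 * Real.log N ^ 709 := by ring
      _ ≤ _ := hnum
  have hkN : k ≤ N := by
    have : (k : ℝ) ≤ N := by
      have : 0 ≤ c * (N : ℝ) := by positivity
      linarith
    exact_mod_cast this
  have hkey : ∀ S : ℕ, (S : ℝ) ≤ (N : ℝ) ^ (1 / 2 : ℝ) →
      (∀ i, i ≤ p → bb i + S ≤ bb (i + 1)) ∧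
      (∀ i, 1 ≤ i → i ≤ p → S ≤ bb i) ∧
      (∀ i, 1 ≤ i → i ≤ p → bb i + S ≤ N) ∧
      (∀ i, 1 ≤ i → i ≤ p → bb i + S ≤ k ∨ k + S ≤ bb i) ∧
      (∀ i, 1 ≤ i → i ≤ p → bb i + S ≤ N - k ∨ (N - k) + S ≤ bb i) ∧
      S ≤ k ∧ k + S ≤ N := by
    intro S hS
    refine ⟨fun i hi => ?_, fun i h1 h2 => ?_, fun i h1 h2 => ?_, fun i h1 h2 => ?_,
      fun i h1 h2 => ?_, ?_, ?_⟩
    · have := hBL.gap i hi
      have h : (bb i : ℝ) + S ≤ bb (i + 1) := by linarith
      exact_mod_cast h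
    · have h := le_trans hS (hSep i h1 h2).1
      exact_mod_cast h
    · have h : (bb i : ℝ) + S ≤ N := by linarith [(hSep i h1 h2).2.1]
      exact_mod_cast h
    · have h := le_trans hS (hSep i h1 h2).2.2.1
      rcases le_abs.1 h with h | h
      · right
        have h' : (k : ℝ) + S ≤ bb i := by linarith
        exact_mod_cast h'
      · left
        have h' : (bb i : ℝ) + S ≤ k := by linarith
        exact_mod_cast h'
    · have h := le_trans hS (hSep i h1 h2).2.2.2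
      rcases le_abs.1 h with h | h
      · right
        have h' : ((N - k : ℕ) : ℝ) + S ≤ bb i := by linarith
        exact_mod_cast h'
      · left
        have h' : (bb i : ℝ) + S ≤ (N - k : ℕ) := by linarith
        exact_mod_cast h'
    · have h : (S : ℝ) ≤ k := by linarith
      exact_mod_cast h
    · have h : (k : ℝ) + S ≤ N := by linarith
      exact_mod_cast h
  obtain ⟨f1, f2, f3, f4, f5, f6, f7⟩ := hkey _ hSr
  obtain ⟨e1, e2, e3, e4, e5, e6, e7⟩ := hzn_core (N := N) (p := p) (k := k) (bb := bb)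
    (S := 4 * ((p + 1) * rs N) + 4 * rs N) (P := (p + 1) * rs N)
    ⟨rfl, rfl, hBL.b0, hBL.bN, f1, f2, f3, f4, f5, f6, f7, hR2⟩
  have hroom : ∀ h : ℕ → ℕ, h (p + 1) = 0 → (∀ i, i ≤ p → h (i + 1) + rs N ≤ h i ∧
      h i + rs N + bb i ≤ h (i + 1) + bb (i + 1)) → Room N p bb h (2 * Real.log N ^ 243) := by
    intro h hh0 hh
    refine ⟨hh0, fun i hi => ?_⟩
    obtain ⟨h1, h2⟩ := hh i hi
    have h1' : (h (i + 1) : ℝ) + rs N ≤ h i := by exact_mod_cast h1
    have h2' : (h i : ℝ) + rs N + bb i ≤ h (i + 1) + bb (i + 1) := by exact_mod_cast h2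
    constructor <;> linarith
  refine ⟨e1, e2, hroom _ e3 e5, hroom _ e4 e6, fun i hi => ?_⟩
  obtain ⟨h1, h2, h3⟩ := e7 i hi
  refine ⟨h1, ?_⟩
  unfold dlt
  have h2' : (hz1 N p k bb i : ℝ) + ((k - bb i : ℕ) : ℝ) ≤ hz0 N p k bb i + k := by
    exact_mod_cast h2
  have h3' : (hz1 N p k bb i : ℝ) + ((k - bb i : ℕ) : ℝ) ≤ hz0 N p k bb i + ((N - bb i : ℕ) : ℝ) := by
    exact_mod_cast h3
  rcases le_total k (N - bb i) with h4 | h4
  · rw [min_eq_left h4]
    linarith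
  · rw [min_eq_right h4]
    linarith

end Pool.Agent.Helper98.EX
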